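import Mathlib

set_option autoImplicit false

/-!
# MP_3cee42_co: a finite additive poset that is not plain

An additive poset with 16 elements that admits no embedding into an additive powerset.
Write the elements of the vector space of dimension four over the field with two elements as
`0, …, 15` (binary digits). The order has, besides `0 ≤ v` and `v ≤ v`, the six relations
`1, 15 ≤ 14`, `4, 6 ≤ 2` and `5, 12 ≤ 9`. No order-preserving functional separates `1` from `2`.
-/

namespace Pool.Agent.Results.MP_3cee42_co.NonPlain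

/-- The two axioms of an additive poset. -/
def IsAdditivePoset (A : Type) [AddCommGroup A] [PartialOrder A] : Prop :=
  (∀ a b c : A, b ≤ a → c ≤ a → b + c ≤ a) ∧ (∀ a b c : A, a ≤ b → a ≤ c → a ≤ a + b + c)

/-- `A` is plain: it embeds in the additive powerset `2 ^ I` (the subsets of `I` with the symmetric
difference as addition and the inclusion as order) for some finite set `I`. -/
def IsPlain (A : Type) [AddCommGroup A] [PartialOrder A] : Prop :=
  ∃ (I : Type) (_ : Finite I) (φ : A → Set I), Function.Injective φ ∧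
    (∀ a b, φ (a + b) = symmDiff (φ a) (φ b)) ∧ ∀ a b, a ≤ b ↔ φ a ⊆ φ b

/-- The vector space of dimension four over the field with two elements. -/
structure V where
  x : Bool
  y : Bool
  z : Bool
  w : Bool
  deriving DecidableEq

namespace V

/-- The vectors with first coordinate as lowest binary digit. -/
def ofNat (n : ℕ) : V := ⟨n.testBit 0, n.testBit 1, n.testBit 2, n.testBit 3⟩

instance : Fintype V where
  elems := (Finset.range 16).image ofNat
  complete := by
    rintro ⟨x, y, z, w⟩
    cases x <;> cases y <;> cases z <;> cases w <;> decide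

instance : Zero V := ⟨⟨false, false, false, false⟩⟩
instance : Add V := ⟨fun a b => ⟨xor a.x b.x, xor a.y b.y, xor a.z b.z, xor a.w b.w⟩⟩
instance : Neg V := ⟨id⟩

theorem add_def (a b : V) : a + b = ⟨xor a.x b.x, xor a.y b.y, xor a.z b.z, xor a.w b.w⟩ := rfl

theorem zero_def : (0 : V) = ⟨false, false, false, false⟩ := rfl

instance : AddCommGroup V where
  add_assoc a b c := by simp only [add_def, Bool.xor_assoc]
  zero_add a := by simp [add_def, zero_def]
  add_zero a := by simp [add_def, zero_def]
  add_comm a b := by simp only [add_def, Bool.xor_comm]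
  neg_add_cancel a := by
    show (⟨xor a.x a.x, xor a.y a.y, xor a.z a.z, xor a.w a.w⟩ : V) = _
    simp [zero_def]
  nsmul := nsmulRec
  zsmul := zsmulRec

/-- The order: `0 ≤ v`, `v ≤ v` and `1, 15 ≤ 14`, `4, 6 ≤ 2`, `5, 12 ≤ 9`. -/
def le (a b : V) : Prop :=
  a = b ∨ a = 0 ∨ (b = ofNat 14 ∧ (a = ofNat 1 ∨ a = ofNat 15)) ∨
    (b = ofNat 2 ∧ (a = ofNat 4 ∨ a = ofNat 6)) ∨ (b = ofNat 9 ∧ (a = ofNat 5 ∨ a = ofNat 12))

instance : DecidableRel le := fun a b => by unfold le; infer_instance

instance : PartialOrder V where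
  le := le
  le_refl := by decide +kernel
  le_trans := by decide +kernel
  le_antisymm := by decide +kernel

instance : DecidableRel (fun a b : V => a ≤ b) := fun a b => inferInstanceAs (Decidable (le a b))

theorem isAdditivePoset : IsAdditivePoset V := by
  constructor
  · have h : ∀ a b c : V, le b a → le c a → le (b + c) a := by decide +kernel
    exact h
  · have h : ∀ a b c : V, le a b → le a c → le a (a + b + c) := by decide +kernel
    exact h

theorem not_isPlain : ¬ IsPlain V := by
  rintro ⟨I, -, φ, -, hadd, hle⟩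
  -- for every point `i`, membership of `i` is an order-preserving functional
  have hnot : ¬ φ (ofNat 1) ⊆ φ (ofNat 2) := by
    rw [← hle]
    have : ¬ le (ofNat 1) (ofNat 2) := by decide
    exact this
  apply hnot
  intro i h1
  by_contra h2
  have hmem : ∀ a b, i ∈ φ (a + b) ↔ Xor (i ∈ φ a) (i ∈ φ b) := by
    intro a b
    rw [hadd, Set.mem_symmDiff]
    rfl
  have up : ∀ a b, le a b → i ∈ φ a → i ∈ φ b := fun a b h ha => (hle a b).1 h ha
  have h4 : i ∉ φ (ofNat 4) := fun h => h2 (up _ _ (by decide) h)
  have h14 : i ∈ φ (ofNat 14) := up _ _ (by decide) h1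
  -- `5 = 4 + 1`
  have h5 : i ∈ φ (ofNat 5) := by
    have e : ofNat 5 = ofNat 4 + ofNat 1 := by decide
    rw [e, hmem]
    exact Or.inr ⟨h1, h4⟩
  have h9 : i ∈ φ (ofNat 9) := up _ _ (by decide) h5
  -- `8 = 9 + 1`
  have h8 : i ∉ φ (ofNat 8) := by
    have e : ofNat 8 = ofNat 9 + ofNat 1 := by decide
    rw [e, hmem]
    rintro (⟨-, h⟩ | ⟨-, h⟩)
    · exact h h1
    · exact h h9
  -- `14 = (2 + 4) + 8`
  have h6 : i ∉ φ (ofNat 2 + ofNat 4) := by
    rw [hmem]
    rintro (⟨h, -⟩ | ⟨h, -⟩)
    · exact h2 h
    · exact h4 h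
  have e : ofNat 14 = (ofNat 2 + ofNat 4) + ofNat 8 := by decide
  rw [e, hmem] at h14
  rcases h14 with ⟨h, -⟩ | ⟨h, -⟩
  · exact h6 h
  · exact h8 h

end V

/-- There is an additive poset with `16` elements that is not plain. -/
theorem result : ∃ (A : Type) (_ : AddCommGroup A) (_ : PartialOrder A),
    Nat.card A = 16 ∧ IsAdditivePoset A ∧ ¬ IsPlain A := by
  refine ⟨V, inferInstance, inferInstance, ?_, V.isAdditivePoset, V.not_isPlain⟩
  rw [Nat.card_eq_fintype_card]
  decide +kernel

end Pool.Agent.Results.MP_3cee42_co.NonPlain
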